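import Mathlib

/-! Weighted sums over multisets, in `ℝ≥0∞`. -/

namespace Pool.Agent.R866.SN

open scoped ENNReal
open Finset

variable (c : ℕ → ℝ≥0∞)

/-- The weight of a multiset. -/
noncomputable def w (s : Multiset ℕ) : ℝ≥0∞ := (s.map c).prod

theorem w_add (s t : Multiset ℕ) : w c (s + t) = w c s * w c t := by
  simp [w]

theorem w_replicate (j k : ℕ) : w c (Multiset.replicate j k) = c k ^ j := by
  simp [w]

/-- The weighted number of multisets with sum `n`. -/
noncomputable def a (n : ℕ) : ℝ≥0∞ := ∑' s : Multiset ℕ, if s.sum = n then w c s else 0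

/-- The weighted number of all multisets with entries at most `N`. -/
noncomputable def S (N : ℕ) : ℝ≥0∞ :=
  ∑' s : Multiset ℕ, if (∀ i ∈ s, i ≤ N) then w c s else 0

/-- The weighted number of all multisets with entries at most `N`, weighted by the sum. -/
noncomputable def T (N : ℕ) : ℝ≥0∞ :=
  ∑' s : Multiset ℕ, (s.sum : ℝ≥0∞) * if (∀ i ∈ s, i ≤ N) then w c s else 0

theorem sum_eq (s : Multiset ℕ) :
    (s.sum : ℝ≥0∞) = ∑' k : ℕ, ∑' j : ℕ, if j < s.count k then (k : ℝ≥0∞) else 0 := by
  classical
  have h1 : ∀ k : ℕ, (∑' j : ℕ, if j < s.count k then (k : ℝ≥0∞) else 0)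
      = (s.count k : ℝ≥0∞) * k := by
    intro k
    rw [tsum_eq_sum (s := range (s.count k))]
    · rw [sum_congr rfl (g := fun _ => (k : ℝ≥0∞))]
      · simp
      · intro j hj
        rw [if_pos (mem_range.mp hj)]
    · intro j hj
      rw [if_neg (by simpa using hj)]
  simp_rw [h1]
  rw [tsum_eq_sum (s := s.toFinset)]
  · rw [Finset.sum_multiset_count]
    push_cast
    refine sum_congr rfl fun k _ => ?_
    simp
  · intro k hk
    rw [Multiset.mem_toFinset] at hk
    rw [Multiset.count_eq_zero_of_notMem hk]
    simp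

/-- Removing `j + 1` copies of `k`. -/
theorem shift (Φ : Multiset ℕ → ℝ≥0∞) (k j : ℕ) :
    ∑' s : Multiset ℕ, (if j < s.count k then Φ s else 0)
      = ∑' t : Multiset ℕ, Φ (t + Multiset.replicate (j + 1) k) := by
  classical
  have hinj : Function.Injective fun t : Multiset ℕ => t + Multiset.replicate (j + 1) k :=
    fun a b h => by simpa using h
  rw [← hinj.tsum_eq (f := fun s : Multiset ℕ => if j < s.count k then Φ s else 0)]
  · refine tsum_congr fun t => ?_
    rw [if_pos]
    rw [Multiset.count_add, Multiset.count_replicate_self]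
    omega
  · intro s hs
    rw [Function.mem_support] at hs
    have hjs : j < s.count k := by
      by_contra h
      exact hs (if_neg h)
    have hle : Multiset.replicate (j + 1) k ≤ s := Multiset.le_count_iff_replicate_le.mp hjs
    exact ⟨s - Multiset.replicate (j + 1) k, tsub_add_cancel_of_le hle⟩

theorem sum_mul (Φ : Multiset ℕ → ℝ≥0∞) :
    ∑' s : Multiset ℕ, (s.sum : ℝ≥0∞) * Φ s
      = ∑' k : ℕ, ∑' j : ℕ, (k : ℝ≥0∞) * ∑' t : Multiset ℕ,
          Φ (t + Multiset.replicate (j + 1) k) := by
  classical
  calc ∑' s : Multiset ℕ, (s.sum : ℝ≥0∞) * Φ s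
      = ∑' s : Multiset ℕ, ∑' k : ℕ, ∑' j : ℕ, (k : ℝ≥0∞) * (if j < s.count k then Φ s else 0) := by
        refine tsum_congr fun s => ?_
        rw [sum_eq, ← ENNReal.tsum_mul_right]
        refine tsum_congr fun k => ?_
        rw [← ENNReal.tsum_mul_right]
        refine tsum_congr fun j => ?_
        split_ifs <;> simp
    _ = ∑' k : ℕ, ∑' j : ℕ, (k : ℝ≥0∞) * ∑' s : Multiset ℕ, (if j < s.count k then Φ s else 0) := by
        rw [ENNReal.tsum_comm]
        refine tsum_congr fun k => ?_
        rw [ENNReal.tsum_comm]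
        refine tsum_congr fun j => ?_
        rw [ENNReal.tsum_mul_left]
    _ = _ := by
        refine tsum_congr fun k => tsum_congr fun j => ?_
        rw [shift]

/-- `B m = ∑ k c_k^l` over `k l = m`, `l ≥ 1`. -/
noncomputable def B (m : ℕ) : ℝ≥0∞ :=
  ∑' k : ℕ, ∑' j : ℕ, if k * (j + 1) = m then (k : ℝ≥0∞) * c k ^ (j + 1) else 0

theorem recurrence (n : ℕ) :
    (n : ℝ≥0∞) * a c n = ∑' m : ℕ, if m ≤ n then B c m * a c (n - m) else 0 := by
  classical
  have h1 : (n : ℝ≥0∞) * a c n
      = ∑' s : Multiset ℕ, (s.sum : ℝ≥0∞) * (if s.sum = n then w c s else 0) := by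
    rw [a, ← ENNReal.tsum_mul_left]
    refine tsum_congr fun s => ?_
    split_ifs with h
    · rw [h]
    · simp
  rw [h1, sum_mul]
  have h2 : ∀ k j : ℕ, (k : ℝ≥0∞) * ∑' t : Multiset ℕ,
      (if (t + Multiset.replicate (j + 1) k).sum = n then w c (t + Multiset.replicate (j + 1) k)
        else 0) = ∑' m : ℕ, if k * (j + 1) = m then
          (if m ≤ n then (k : ℝ≥0∞) * c k ^ (j + 1) * a c (n - m) else 0) else 0 := by
    intro k j
    rw [tsum_eq_single (k * (j + 1))]
    · rw [if_pos rfl]
      split_ifs with h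
      · rw [a, mul_assoc, ← ENNReal.tsum_mul_left (a := c k ^ (j + 1))]
        congr 1
        refine tsum_congr fun t => ?_
        have e : (t + Multiset.replicate (j + 1) k).sum = t.sum + k * (j + 1) := by
          rw [Multiset.sum_add, Multiset.sum_replicate, smul_eq_mul, mul_comm]
        rw [e, w_add, w_replicate]
        by_cases h' : t.sum = n - k * (j + 1)
        · rw [if_pos (by omega), if_pos h', mul_comm]
        · rw [if_neg (by omega), if_neg h', mul_zero]
      · have : ∀ t : Multiset ℕ, (if (t + Multiset.replicate (j + 1) k).sum = n then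
            w c (t + Multiset.replicate (j + 1) k) else 0) = 0 := by
          intro t
          rw [if_neg]
          have e : (t + Multiset.replicate (j + 1) k).sum = t.sum + k * (j + 1) := by
            rw [Multiset.sum_add, Multiset.sum_replicate, smul_eq_mul, mul_comm]
          rw [e]
          omega
        simp_rw [this]
        simp
    · intro m hm
      rw [if_neg (Ne.symm hm)]
  simp_rw [h2]
  have h3 : ∀ k : ℕ, (∑' j : ℕ, ∑' m : ℕ, if k * (j + 1) = m then
          (if m ≤ n then (k : ℝ≥0∞) * c k ^ (j + 1) * a c (n - m) else 0) else 0)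
      = ∑' m : ℕ, ∑' j : ℕ, if k * (j + 1) = m then
          (if m ≤ n then (k : ℝ≥0∞) * c k ^ (j + 1) * a c (n - m) else 0) else 0 :=
    fun k => ENNReal.tsum_comm
  simp_rw [h3]
  rw [ENNReal.tsum_comm]
  refine tsum_congr fun m => ?_
  split_ifs with h
  · rw [B, ← ENNReal.tsum_mul_right]
    refine tsum_congr fun k => ?_
    rw [← ENNReal.tsum_mul_right]
    refine tsum_congr fun j => ?_
    split_ifs <;> simp
  · simp

theorem T_eq (N : ℕ) :
    T c N = (∑ k ∈ range (N + 1), (k : ℝ≥0∞) * (c k * (1 - c k)⁻¹)) * S c N := by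
  classical
  have h2 : ∀ k j : ℕ, (k : ℝ≥0∞) * ∑' t : Multiset ℕ,
      (if (∀ i ∈ t + Multiset.replicate (j + 1) k, i ≤ N) then
        w c (t + Multiset.replicate (j + 1) k) else 0)
      = if k ≤ N then ((k : ℝ≥0∞) * S c N) * c k ^ (j + 1) else 0 := by
    intro k j
    split_ifs with h
    · rw [S, mul_assoc, ← ENNReal.tsum_mul_right]
      congr 1
      refine tsum_congr fun t => ?_
      rw [w_add, w_replicate]
      by_cases h' : ∀ i ∈ t, i ≤ N
      · rw [if_pos, if_pos h']
        intro i hi
        rw [Multiset.mem_add] at hi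
        rcases hi with hi | hi
        · exact h' i hi
        · rw [Multiset.eq_of_mem_replicate hi]; exact h
      · rw [if_neg, if_neg h', zero_mul]
        intro h''
        exact h' fun i hi => h'' i (Multiset.mem_add.mpr (Or.inl hi))
    · have : ∀ t : Multiset ℕ, (if (∀ i ∈ t + Multiset.replicate (j + 1) k, i ≤ N) then
          w c (t + Multiset.replicate (j + 1) k) else 0) = 0 := by
        intro t
        rw [if_neg]
        intro h''
        exact h (h'' k (Multiset.mem_add.mpr (Or.inr (Multiset.mem_replicate.mpr ⟨by omega, rfl⟩))))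
      simp_rw [this]
      simp
  rw [T, sum_mul]
  simp_rw [h2]
  rw [tsum_eq_sum (s := range (N + 1)), Finset.sum_mul]
  · refine sum_congr rfl fun k hk => ?_
    simp_rw [if_pos (Nat.lt_succ_iff.mp (mem_range.mp hk))]
    rw [ENNReal.tsum_mul_left, ENNReal.tsum_geometric_add_one]
    ring
  · intro k hk
    have : ¬ k ≤ N := fun h => hk (mem_range.mpr (Nat.lt_succ_of_le h))
    simp_rw [if_neg this]
    simp

theorem shift_eq (Φ : Multiset ℕ → ℝ≥0∞) (k j : ℕ) :
    ∑' s : Multiset ℕ, (if s.count k = j then Φ s else 0)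
      = ∑' t : Multiset ℕ, (if t.count k = 0 then Φ (t + Multiset.replicate j k) else 0) := by
  classical
  have hinj : Function.Injective fun t : Multiset ℕ => t + Multiset.replicate j k :=
    fun a b h => by simpa using h
  rw [← hinj.tsum_eq (f := fun s : Multiset ℕ => if s.count k = j then Φ s else 0)]
  · refine tsum_congr fun t => ?_
    have : (t + Multiset.replicate j k).count k = t.count k + j := by
      rw [Multiset.count_add, Multiset.count_replicate_self]
    rw [this]
    by_cases h : t.count k = 0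
    · rw [if_pos (by omega), if_pos h]
    · rw [if_neg (by omega), if_neg h]
  · intro s hs
    rw [Function.mem_support] at hs
    have hjs : s.count k = j := by
      by_contra h
      exact hs (if_neg h)
    have hle : Multiset.replicate j k ≤ s := Multiset.le_count_iff_replicate_le.mp hjs.ge
    exact ⟨s - Multiset.replicate j k, tsub_add_cancel_of_le hle⟩

theorem S_succ (N : ℕ) : S c (N + 1) = (1 - c (N + 1))⁻¹ * S c N := by
  classical
  have h1 : S c (N + 1) = ∑' j : ℕ, ∑' s : Multiset ℕ,
      (if s.count (N + 1) = j then (if (∀ i ∈ s, i ≤ N + 1) then w c s else 0) else 0) := by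
    rw [S, ENNReal.tsum_comm]
    refine tsum_congr fun s => ?_
    rw [tsum_eq_single (s.count (N + 1))]
    · rw [if_pos rfl]
    · intro j hj
      rw [if_neg (Ne.symm hj)]
  rw [h1]
  have h2 : ∀ j : ℕ, (∑' s : Multiset ℕ,
      (if s.count (N + 1) = j then (if (∀ i ∈ s, i ≤ N + 1) then w c s else 0) else 0))
      = c (N + 1) ^ j * S c N := by
    intro j
    rw [shift_eq, S, ← ENNReal.tsum_mul_left]
    refine tsum_congr fun t => ?_
    rw [w_add, w_replicate]
    by_cases h : ∀ i ∈ t, i ≤ N
    · rw [if_pos, if_pos, if_pos h, mul_comm]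
      · intro i hi
        rw [Multiset.mem_add] at hi
        rcases hi with hi | hi
        · exact (h i hi).trans (Nat.le_succ N)
        · rw [Multiset.eq_of_mem_replicate hi]
      · rw [Multiset.count_eq_zero]
        intro hm
        have := h _ hm
        omega
    · rw [if_neg h, mul_zero]
      by_cases h0 : t.count (N + 1) = 0
      · rw [if_pos h0, if_neg]
        intro h''
        apply h
        intro i hi
        have h3 := h'' i (Multiset.mem_add.mpr (Or.inl hi))
        have h4 : i ≠ N + 1 := by
          rintro rfl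
          exact (Multiset.count_eq_zero.mp h0) hi
        omega
      · rw [if_neg h0]
  simp_rw [h2]
  rw [ENNReal.tsum_mul_right, ENNReal.tsum_geometric]

theorem S_zero (h0 : c 0 = 0) : S c 0 = 1 := by
  classical
  rw [S, tsum_eq_single 0]
  · simp [w]
  · intro s hs
    split_ifs with h
    · obtain ⟨i, hi⟩ := Multiset.exists_mem_of_ne_zero hs
      have hi0 : i = 0 := Nat.le_zero.mp (h i hi)
      subst hi0
      rw [w]
      apply Multiset.prod_eq_zero
      rw [← h0]
      exact Multiset.mem_map_of_mem c hi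
    · rfl

theorem S_eq (h0 : c 0 = 0) (N : ℕ) : S c N = ∏ k ∈ range N, (1 - c (k + 1))⁻¹ := by
  induction N with
  | zero => rw [S_zero c h0, prod_range_zero]
  | succ N ih => rw [S_succ, ih, prod_range_succ, mul_comm]

theorem sum_a (N : ℕ) :
    ∑ n ∈ range (N + 1), a c n = ∑' s : Multiset ℕ, if s.sum ≤ N then w c s else 0 := by
  classical
  simp_rw [a]
  rw [← Summable.tsum_finsetSum (fun _ _ => ENNReal.summable)]
  refine tsum_congr fun s => ?_
  rw [Finset.sum_ite_eq]
  congr 1
  rw [mem_range, Nat.lt_succ_iff]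

theorem sum_a_le (N : ℕ) : ∑ n ∈ range (N + 1), a c n ≤ S c N := by
  classical
  rw [sum_a, S]
  refine ENNReal.tsum_le_tsum fun s => ?_
  split_ifs with h h'
  · exact le_rfl
  · exfalso
    apply h'
    intro i hi
    exact (Multiset.le_sum_of_mem hi).trans h
  · exact zero_le
  · exact le_rfl

theorem markov (N : ℕ) : (N : ℝ≥0∞) * S c N ≤ N * ∑ n ∈ range (N + 1), a c n + T c N := by
  classical
  rw [sum_a, S, T, ← ENNReal.tsum_mul_left, ← ENNReal.tsum_mul_left, ← ENNReal.tsum_add]
  refine ENNReal.tsum_le_tsum fun s => ?_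
  by_cases h : s.sum ≤ N
  · rw [if_pos h]
    refine le_trans ?_ le_self_add
    gcongr
    split_ifs
    · exact le_rfl
    · exact zero_le
  · refine le_trans ?_ le_add_self
    gcongr
    exact_mod_cast (not_le.mp h).le

end Pool.Agent.R866.SN
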