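import Pool.Agent.R866.SN.Prime

/-! The coefficients `B m` and the conclusion. -/

namespace Pool.Agent.R866.SN

open Filter Topology Finset
open scoped ENNReal

/-- the remainder of `B m` -/
noncomputable def R (m : ℕ) : ℝ≥0∞ :=
  ∑' k : ℕ, ∑' j : ℕ, if k * (j + 2) = m then (k : ℝ≥0∞) * ce k ^ (j + 2) else 0

theorem B_eq (m : ℕ) : B ce m = ENNReal.ofReal ((m : ℝ) * cr m) + R m := by
  have h1 : ∀ k : ℕ, (∑' j : ℕ, if k * (j + 1) = m then (k : ℝ≥0∞) * ce k ^ (j + 1) else 0)
      = (if k = m then (k : ℝ≥0∞) * ce k else 0) +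
        ∑' j : ℕ, if k * (j + 2) = m then (k : ℝ≥0∞) * ce k ^ (j + 2) else 0 := by
    intro k
    rw [tsum_eq_zero_add' ENNReal.summable]
    simp
  rw [B]
  simp_rw [h1]
  rw [ENNReal.tsum_add, R]
  congr 1
  rw [tsum_eq_single m]
  · rw [if_pos rfl, ENNReal.ofReal_mul (Nat.cast_nonneg _), ENNReal.ofReal_natCast]
    rfl
  · intro k hk
    rw [if_neg hk]

theorem two_pow_ge (j : ℕ) : (j + 3) ^ 2 ≤ 9 * 2 ^ j := by
  induction j with
  | zero => norm_num
  | succ j ih =>
    have : (j + 1 + 3) ^ 2 ≤ 2 * (j + 3) ^ 2 := by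
      have e1 : (j + 1 + 3) ^ 2 = j * j + 8 * j + 16 := by ring
      have e2 : 2 * (j + 3) ^ 2 = 2 * (j * j) + 12 * j + 18 := by ring
      rw [e1, e2]
      have := Nat.zero_le (j * j)
      linarith [Nat.zero_le j]
    calc (j + 1 + 3) ^ 2 ≤ 2 * (j + 3) ^ 2 := this
      _ ≤ 2 * (9 * 2 ^ j) := by omega
      _ = 9 * 2 ^ (j + 1) := by ring

theorem term_le {k j m : ℕ} (hk : k ≠ 0) (h : k * (j + 2) = m) :
    (k : ℝ) * cr k ^ (j + 2) ≤ 9 / (m : ℝ) ^ 2 + if 2 * k = m then 2 / (m : ℝ) else 0 := by
  have hk1 : (1 : ℝ) ≤ k := by exact_mod_cast Nat.one_le_iff_ne_zero.mpr hk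
  have hc := cr_le hk
  have hc0 := cr_nonneg k
  have hm : m ≠ 0 := by
    rw [← h]; positivity
  have hm0 : (0 : ℝ) < m := by positivity
  have h1 : (k : ℝ) * cr k ^ (j + 2) ≤ (((k : ℝ) + 1) ^ (j + 1))⁻¹ := by
    calc (k : ℝ) * cr k ^ (j + 2) ≤ ((k : ℝ) + 1) * (((k : ℝ) + 1)⁻¹) ^ (j + 2) := by
          gcongr
          linarith
      _ = (((k : ℝ) + 1) ^ (j + 1))⁻¹ := by
          have hk0 : (k : ℝ) + 1 ≠ 0 := by positivity
          rw [inv_pow, pow_succ ((k : ℝ) + 1) (j + 1), mul_inv, mul_comm, mul_assoc,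
            inv_mul_cancel₀ hk0, mul_one]
  refine h1.trans ?_
  rcases Nat.eq_zero_or_pos j with hj | hj
  · subst hj
    rw [if_pos (by omega)]
    have e : (m : ℝ) = 2 * k := by rw [← h]; push_cast; ring
    have : (((k : ℝ) + 1) ^ (0 + 1))⁻¹ ≤ 2 / (m : ℝ) := by
      rw [e, zero_add, pow_one, inv_le_comm₀ (by positivity) (by positivity), inv_div]
      linarith
    have h9 : 0 ≤ 9 / (m : ℝ) ^ 2 := by positivity
    linarith
  · have : (((k : ℝ) + 1) ^ (j + 1))⁻¹ ≤ 9 / (m : ℝ) ^ 2 := by
      rw [inv_le_comm₀ (by positivity) (by positivity), inv_div, div_le_iff₀ (by norm_num)]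
      obtain ⟨i, rfl⟩ : ∃ i, j = i + 1 := ⟨j - 1, by omega⟩
      have e : (m : ℝ) = k * (i + 3) := by rw [← h]; push_cast; ring
      have h2 : ((i : ℝ) + 3) ^ 2 ≤ 9 * 2 ^ i := by exact_mod_cast two_pow_ge i
      have h3 : (2 : ℝ) ^ i ≤ ((k : ℝ) + 1) ^ i := by gcongr; linarith
      rw [e, mul_pow]
      calc (k : ℝ) ^ 2 * ((i : ℝ) + 3) ^ 2 ≤ ((k : ℝ) + 1) ^ 2 * (9 * ((k : ℝ) + 1) ^ i) := by
            gcongr
            · linarith
            · exact h2.trans (by gcongr)
        _ = ((k : ℝ) + 1) ^ (i + 1 + 1) * 9 := by ring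
    have h9 : 0 ≤ (if 2 * k = m then 2 / (m : ℝ) else 0) := by
      split_ifs
      · positivity
      · exact le_rfl
    linarith

theorem R_le {m : ℕ} (hm : m ≠ 0) : R m ≤ ENNReal.ofReal (20 / m) := by
  have hm0 : (0 : ℝ) < m := by positivity
  have hm1 : (1 : ℝ) ≤ m := by exact_mod_cast Nat.one_le_iff_ne_zero.mpr hm
  have h1 : ∀ k : ℕ, (∑' j : ℕ, if k * (j + 2) = m then (k : ℝ≥0∞) * ce k ^ (j + 2) else 0)
      ≤ if k ∈ range (m + 1) then
        ENNReal.ofReal (9 / (m : ℝ) ^ 2 + if 2 * k = m then 2 / (m : ℝ) else 0) else 0 := by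
    intro k
    by_cases hex : ∃ j, k * (j + 2) = m
    · obtain ⟨j, hj⟩ := hex
      have hk : k ≠ 0 := by
        rintro rfl
        rw [zero_mul] at hj
        exact hm hj.symm
      rw [tsum_eq_single j]
      · rw [if_pos hj, if_pos]
        · have e : (k : ℝ≥0∞) * ce k ^ (j + 2) = ENNReal.ofReal ((k : ℝ) * cr k ^ (j + 2)) := by
            rw [ENNReal.ofReal_mul (Nat.cast_nonneg _), ENNReal.ofReal_pow (cr_nonneg _),
              ENNReal.ofReal_natCast]
            rfl
          rw [e]
          exact ENNReal.ofReal_le_ofReal (term_le hk hj)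
        · rw [mem_range, ← hj]
          nlinarith
      · intro i hi
        rw [if_neg]
        intro h
        apply hi
        have : k * (i + 2) = k * (j + 2) := h.trans hj.symm
        have := Nat.eq_of_mul_eq_mul_left (Nat.pos_of_ne_zero hk) this
        omega
    · push Not at hex
      simp_rw [if_neg (hex _)]
      simp
  calc R m ≤ ∑' k : ℕ, if k ∈ range (m + 1) then
        ENNReal.ofReal (9 / (m : ℝ) ^ 2 + if 2 * k = m then 2 / (m : ℝ) else 0) else 0 :=
        ENNReal.tsum_le_tsum h1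
    _ = ∑ k ∈ range (m + 1),
        ENNReal.ofReal (9 / (m : ℝ) ^ 2 + if 2 * k = m then 2 / (m : ℝ) else 0) := by
        rw [tsum_eq_sum (s := range (m + 1))]
        · exact sum_congr rfl fun k hk => if_pos hk
        · intro k hk
          exact if_neg hk
    _ = ENNReal.ofReal (∑ k ∈ range (m + 1),
        (9 / (m : ℝ) ^ 2 + if 2 * k = m then 2 / (m : ℝ) else 0)) := by
        rw [ENNReal.ofReal_sum_of_nonneg]
        intro k _
        have h9 : 0 ≤ (if 2 * k = m then 2 / (m : ℝ) else 0) := by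
          split_ifs
          · positivity
          · exact le_rfl
        positivity
    _ ≤ ENNReal.ofReal (20 / m) := by
        apply ENNReal.ofReal_le_ofReal
        rw [Finset.sum_add_distrib, Finset.sum_const, card_range, nsmul_eq_mul]
        have h2 : ∑ k ∈ range (m + 1), (if 2 * k = m then 2 / (m : ℝ) else 0) ≤ 2 / m := by
          calc ∑ k ∈ range (m + 1), (if 2 * k = m then 2 / (m : ℝ) else 0)
              ≤ ∑ k ∈ range (m + 1), (if k = m / 2 then 2 / (m : ℝ) else 0) := by
                refine sum_le_sum fun k _ => ?_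
                split_ifs with g1 g2
                · exact le_rfl
                · omega
                · positivity
                · exact le_rfl
            _ ≤ 2 / m := by
                rw [Finset.sum_ite_eq']
                split_ifs
                · exact le_rfl
                · positivity
        have h3 : ((m + 1 : ℕ) : ℝ) * (9 / (m : ℝ) ^ 2) ≤ 18 / (m : ℝ) := by
          have : ((m + 1 : ℕ) : ℝ) ≤ 2 * m := by push_cast; linarith
          calc ((m + 1 : ℕ) : ℝ) * (9 / (m : ℝ) ^ 2) ≤ (2 * m) * (9 / (m : ℝ) ^ 2) := by gcongr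
            _ = 18 / (m : ℝ) := by field_simp; norm_num
        have h4 : (20 : ℝ) / m = 18 / m + 2 / m := by ring
        linarith

theorem R_zero : R 0 = 0 := by
  rw [R]
  simp only [ENNReal.tsum_eq_zero]
  intro k j
  split_ifs with h
  · have : k = 0 := by
      rcases Nat.mul_eq_zero.mp h with h | h
      · exact h
      · omega
    subst this
    simp
  · rfl

theorem R_ne_top (m : ℕ) : R m ≠ ⊤ := by
  rcases eq_or_ne m 0 with rfl | hm
  · rw [R_zero]; exact ENNReal.zero_ne_top
  · exact ne_top_of_le_ne_top ENNReal.ofReal_ne_top (R_le hm)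

/-- real version of `B` -/
noncomputable def Br (m : ℕ) : ℝ := (B ce m).toReal

theorem B_ne_top (m : ℕ) : B ce m ≠ ⊤ := by
  rw [B_eq]
  exact ENNReal.add_ne_top.mpr ⟨ENNReal.ofReal_ne_top, R_ne_top m⟩

theorem Br_eq (m : ℕ) : Br m = (m : ℝ) * cr m + (R m).toReal := by
  rw [Br, B_eq, ENNReal.toReal_add ENNReal.ofReal_ne_top (R_ne_top m),
    ENNReal.toReal_ofReal (mul_nonneg (Nat.cast_nonneg _) (cr_nonneg _))]

theorem Br_zero : Br 0 = 0 := by
  rw [Br_eq, R_zero]; simp

theorem Br_tendsto : Tendsto (fun m => Br m * l m) atTop (𝓝 1) := by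
  have h1 : Tendsto (fun m : ℕ => (R m).toReal * l m) atTop (𝓝 0) := by
    have h2 : Tendsto (fun m : ℕ => 20 * (l m / m)) atTop (𝓝 0) := by
      have h3 : Tendsto (fun m : ℕ => Real.log m / (m : ℝ)) atTop (𝓝 0) := by
        have h4 : Tendsto (fun x : ℝ => Real.log x / x) atTop (𝓝 0) :=
          Real.isLittleO_log_id_atTop.tendsto_div_nhds_zero
        exact h4.comp tendsto_natCast_atTop_atTop
      have h5 := (l_div_log.mul h3).const_mul 20
      rw [mul_zero, mul_zero] at h5
      refine h5.congr' ?_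
      have hlog : Tendsto (fun k : ℕ => Real.log (k : ℝ)) atTop atTop :=
        Real.tendsto_log_atTop.comp tendsto_natCast_atTop_atTop
      filter_upwards [hlog.eventually_gt_atTop 0] with k hk
      field_simp
    refine tendsto_of_tendsto_of_tendsto_of_le_of_le' tendsto_const_nhds h2 ?_ ?_
    · filter_upwards with m
      exact mul_nonneg ENNReal.toReal_nonneg (l_pos m).le
    · filter_upwards [eventually_ne_atTop 0] with m hm
      have h6 : (R m).toReal ≤ 20 / m := by
        have : (0 : ℝ) ≤ 20 / m := by positivity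
        exact ENNReal.toReal_le_of_le_ofReal this (R_le hm)
      have := (l_pos m).le
      calc (R m).toReal * l m ≤ 20 / m * l m := by gcongr
        _ = 20 * (l m / m) := by ring
  have h := mc_tendsto.add h1
  rw [add_zero] at h
  refine h.congr fun m => ?_
  rw [Br_eq]; ring

theorem rec_real (n : ℕ) : (n : ℝ) * ar n = ∑ i ∈ range (n + 1), ar i * Br (n - i) := by
  have h := recurrence ce n
  rw [tsum_eq_sum (s := range (n + 1))] at h
  · have h2 := congrArg ENNReal.toReal h
    rw [ENNReal.toReal_mul, ENNReal.toReal_natCast, ENNReal.toReal_sum] at h2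
    · change (n : ℝ) * (a ce n).toReal = _
      rw [h2, ← Finset.sum_range_reflect]
      refine sum_congr rfl fun i hi => ?_
      rw [mem_range] at hi
      rw [if_pos (by omega), ENNReal.toReal_mul]
      have e1 : n + 1 - 1 - i = n - i := by omega
      have e2 : n - (n - i) = i := by omega
      rw [e1, e2, mul_comm]
      rfl
    · intro i hi
      split_ifs
      · exact ENNReal.mul_ne_top (B_ne_top _) (a_ne_top _)
      · exact ENNReal.zero_ne_top
  · intro m hm
    rw [mem_range] at hm
    rw [if_neg (by omega)]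

theorem main_ar : Tendsto (fun n : ℕ => (n : ℝ) * ar n) atTop
    (𝓝 (Real.exp Real.eulerMascheroniConstant)) :=
  tauber ar_nonneg (fun _ => ENNReal.toReal_nonneg) Br_zero rec_real Br_tendsto A_tendsto

theorem w_parts {n : ℕ} (p : Nat.Partition n) :
    w ce p.parts = ENNReal.ofReal (((p.parts.map fun k => ((Nat.nth Nat.Prime (k - 1) : ℕ) : ℝ)).prod)⁻¹) := by
  have key : ∀ s : Multiset ℕ, (∀ i ∈ s, 0 < i) →
      w ce s = ENNReal.ofReal (((s.map fun k => ((Nat.nth Nat.Prime (k - 1) : ℕ) : ℝ)).prod)⁻¹) := by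
    intro s
    induction s using Multiset.induction_on with
    | empty => intro _; simp [w]
    | cons i s ih =>
      intro h
      have hi : i ≠ 0 := (h i (Multiset.mem_cons_self i s)).ne'
      have hs := ih fun j hj => h j (Multiset.mem_cons_of_mem hj)
      unfold w at hs ⊢
      rw [Multiset.map_cons, Multiset.prod_cons, hs, Multiset.map_cons, Multiset.prod_cons, mul_inv,
        ENNReal.ofReal_mul (by positivity)]
      congr 1
      unfold ce cr
      rw [if_neg hi]
      rfl
  exact key p.parts fun i hi => p.parts_pos hi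

theorem ar_eq (n : ℕ) : ar n = ∑ p : Nat.Partition n,
    ((p.parts.map fun k => ((Nat.nth Nat.Prime (k - 1) : ℕ) : ℝ)).prod)⁻¹ := by
  have hnn : ∀ p : Nat.Partition n,
      0 ≤ ((p.parts.map fun k => ((Nat.nth Nat.Prime (k - 1) : ℕ) : ℝ)).prod)⁻¹ := by
    intro p
    apply inv_nonneg.mpr
    apply Multiset.prod_nonneg
    intro x hx
    obtain ⟨k, _, rfl⟩ := Multiset.mem_map.mp hx
    positivity
  have h : a ce n = ∑ p : Nat.Partition n, w ce p.parts := by
    have hinj : Function.Injective fun p : Nat.Partition n => p.parts :=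
      fun p q h => Nat.Partition.ext h
    rw [a, ← hinj.tsum_eq (f := fun s : Multiset ℕ => if s.sum = n then w ce s else 0), tsum_fintype]
    · refine sum_congr rfl fun p _ => ?_
      rw [if_pos p.parts_sum]
    · intro s hs
      rw [Function.mem_support] at hs
      have h1 : s.sum = n := by
        by_contra h; exact hs (if_neg h)
      rw [if_pos h1] at hs
      have h2 : ∀ i ∈ s, 0 < i := by
        intro i hi
        rcases Nat.eq_zero_or_pos i with h | h
        · exfalso
          apply hs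
          rw [w]
          apply Multiset.prod_eq_zero
          rw [← ce_zero, ← h]
          exact Multiset.mem_map_of_mem ce hi
        · exact h
      exact ⟨⟨s, fun {i} hi => h2 i hi, h1⟩, rfl⟩
  rw [ar, h]
  simp_rw [w_parts]
  rw [← ENNReal.ofReal_sum_of_nonneg fun p _ => hnn p,
    ENNReal.toReal_ofReal (sum_nonneg fun p _ => hnn p)]

end Pool.Agent.R866.SN
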