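import Mathlib

/-! A Tauberian statement for recurrences `n a_n = ∑ B_m a_{n-m}` with `B_m ~ 1 / log m`. -/

namespace Pool.Agent.R866.SN

open Filter Topology Finset

/-- `log (n + 2)` -/
noncomputable def l (n : ℕ) : ℝ := Real.log ((n : ℝ) + 2)

theorem l_pos (n : ℕ) : 0 < l n := by
  have : (0 : ℝ) ≤ n := Nat.cast_nonneg n
  exact Real.log_pos (by linarith)

theorem l_mono {m n : ℕ} (h : m ≤ n) : l m ≤ l n := by
  have h0 : (0 : ℝ) ≤ m := Nat.cast_nonneg m
  have h1 : (m : ℝ) ≤ n := by exact_mod_cast h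
  exact Real.log_le_log (by linarith) (by linarith)

theorem l_tendsto : Tendsto l atTop atTop :=
  Real.tendsto_log_atTop.comp (tendsto_atTop_add_const_right _ _ tendsto_natCast_atTop_atTop)

/-- half of `n`, rounded up -/
def hf (n : ℕ) : ℕ := (n + 1) / 2

theorem hf_tendsto : Tendsto hf atTop atTop := by
  refine tendsto_atTop.mpr fun b => ?_
  filter_upwards [eventually_ge_atTop (2 * b)] with n hn
  unfold hf
  omega

theorem l_hf (n : ℕ) : l n - Real.log 2 ≤ l (hf n) := by
  have h0 : (0 : ℝ) ≤ n := Nat.cast_nonneg n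
  unfold l
  rw [← Real.log_div (by linarith) (by norm_num)]
  apply Real.log_le_log (by linarith)
  have h1 : n ≤ 2 * hf n := by unfold hf; omega
  have h2 : (n : ℝ) ≤ 2 * hf n := by exact_mod_cast h1
  linarith

theorem ratio_tendsto : Tendsto (fun n => l n / l (hf n)) atTop (𝓝 1) := by
  have h1 : Tendsto (fun n => Real.log 2 / l (hf n)) atTop (𝓝 0) :=
    (l_tendsto.comp hf_tendsto).const_div_atTop _
  have h2 : Tendsto (fun n => 1 + Real.log 2 / l (hf n)) atTop (𝓝 1) := by
    simpa using h1.const_add 1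
  refine tendsto_of_tendsto_of_tendsto_of_le_of_le tendsto_const_nhds h2 (fun n => ?_) fun n => ?_
  · have : hf n ≤ n ∨ n = 0 := by unfold hf; omega
    have h3 : l (hf n) ≤ l n := by
      rcases this with h | h
      · exact l_mono h
      · subst h; exact le_rfl
    change 1 ≤ l n / l (hf n)
    rw [one_le_div (l_pos _)]
    exact h3
  · change l n / l (hf n) ≤ 1 + Real.log 2 / l (hf n)
    rw [div_le_iff₀ (l_pos _), add_mul, one_mul, div_mul_cancel₀ _ (l_pos _).ne']
    linarith [l_hf n]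

variable {a B : ℕ → ℝ} {L : ℝ}

theorem uni (hBl : Tendsto (fun m => B m * l m) atTop (𝓝 1)) {ε : ℝ} (hε : 0 < ε) :
    ∀ᶠ n in atTop, ∀ m, hf n ≤ m → m ≤ n → |B m * l n - 1| ≤ ε := by
  have h1 : ∀ᶠ n in atTop, |l n / l (hf n) - 1| < min (ε / 3) 1 := by
    have := (tendsto_order.1 ((ratio_tendsto.sub_const 1).abs)).2 (min (ε / 3) 1)
      (by simp; positivity)
    exact this
  have h2 : ∀ᶠ m in atTop, |B m * l m - 1| < ε / 3 := by
    have := (tendsto_order.1 ((hBl.sub_const 1).abs)).2 (ε / 3) (by simp; positivity)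
    exact this
  obtain ⟨M, hM⟩ := eventually_atTop.1 h2
  filter_upwards [h1, hf_tendsto.eventually_ge_atTop M] with n hn1 hn2 m hm1 hm2
  have k1 := hM m (hn2.trans hm1)
  have hlm := l_pos m
  have hlh := l_pos (hf n)
  have r1 : 1 ≤ l n / l m := (one_le_div hlm).mpr (l_mono hm2)
  have r2 : l n / l m ≤ l n / l (hf n) :=
    div_le_div_of_nonneg_left (l_pos n).le hlh (l_mono hm1)
  have r3 : l n / l (hf n) < 1 + min (ε / 3) 1 := by
    have := (abs_lt.1 hn1).2
    linarith
  have e : B m * l n - 1 = (B m * l m - 1) * (l n / l m) + (l n / l m - 1) := by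
    field_simp
    ring
  rw [e]
  have m1 := min_le_left (ε / 3) 1
  have m2 := min_le_right (ε / 3) 1
  calc |(B m * l m - 1) * (l n / l m) + (l n / l m - 1)|
      ≤ |(B m * l m - 1) * (l n / l m)| + |l n / l m - 1| := abs_add_le _ _
    _ ≤ (ε / 3) * 2 + ε / 3 := by
        gcongr
        · rw [abs_mul]
          gcongr
          rw [abs_of_nonneg (by linarith)]
          linarith
        · rw [abs_of_nonneg (by linarith)]
          linarith
    _ = ε := by ring

/-- first part of the sum -/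
noncomputable def P1 (a B : ℕ → ℝ) (n : ℕ) : ℝ := ∑ i ∈ range (hf n), a i * B (n - i)

/-- second part of the sum -/
noncomputable def P2 (a B : ℕ → ℝ) (n : ℕ) : ℝ := ∑ i ∈ Ico (hf n) (n + 1), a i * B (n - i)

theorem P1_tendsto (ha : ∀ n, 0 ≤ a n) (hBl : Tendsto (fun m => B m * l m) atTop (𝓝 1))
    (hA : Tendsto (fun n => (∑ i ∈ range n, a i) / l n) atTop (𝓝 L)) :
    Tendsto (P1 a B) atTop (𝓝 L) := by
  have h1 : Tendsto (fun n => (∑ i ∈ range (hf n), a i) / l n) atTop (𝓝 L) := by
    have h2 := (hA.comp hf_tendsto).div ratio_tendsto one_ne_zero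
    rw [div_one] at h2
    refine h2.congr fun n => ?_
    have := (l_pos (hf n)).ne'
    have := (l_pos n).ne'
    simp only [Function.comp, Pi.div_apply]
    field_simp
  have h0 : Tendsto (fun n => P1 a B n - (∑ i ∈ range (hf n), a i) / l n) atTop (𝓝 0) := by
    rw [Metric.tendsto_atTop]
    intro ε hε
    have hb : ∀ᶠ n in atTop, (∑ i ∈ range (hf n), a i) / l n < |L| + 1 :=
      (tendsto_order.1 h1).2 _ (by linarith [le_abs_self L])
    have hL : 0 < |L| + 1 := by positivity
    have hu := uni hBl (ε := ε / (2 * (|L| + 1))) (by positivity)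
    obtain ⟨N, hN⟩ := eventually_atTop.1 (hb.and hu)
    refine ⟨N, fun n hn => ?_⟩
    obtain ⟨g1, g2⟩ := hN n hn
    rw [Real.dist_eq, sub_zero]
    have hln := l_pos n
    have e : P1 a B n - (∑ i ∈ range (hf n), a i) / l n
        = (∑ i ∈ range (hf n), a i * (B (n - i) * l n - 1)) / l n := by
      rw [P1, eq_div_iff hln.ne', sub_mul, div_mul_cancel₀ _ hln.ne', Finset.sum_mul,
        ← Finset.sum_sub_distrib]
      refine sum_congr rfl fun i _ => ?_
      ring
    rw [e, abs_div, abs_of_pos hln]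
    have hs : |∑ i ∈ range (hf n), a i * (B (n - i) * l n - 1)|
        ≤ (∑ i ∈ range (hf n), a i) * (ε / (2 * (|L| + 1))) := by
      rw [Finset.sum_mul]
      refine (Finset.abs_sum_le_sum_abs _ _).trans (sum_le_sum fun i hi => ?_)
      rw [abs_mul, abs_of_nonneg (ha i)]
      have hi' := mem_range.1 hi
      refine mul_le_mul_of_nonneg_left (g2 (n - i) ?_ (Nat.sub_le _ _)) (ha i)
      unfold hf at *
      omega
    calc |∑ i ∈ range (hf n), a i * (B (n - i) * l n - 1)| / l n
        ≤ ((∑ i ∈ range (hf n), a i) * (ε / (2 * (|L| + 1)))) / l n := by gcongr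
      _ = ((∑ i ∈ range (hf n), a i) / l n) * (ε / (2 * (|L| + 1))) := by ring
      _ ≤ (|L| + 1) * (ε / (2 * (|L| + 1))) := by gcongr
      _ = ε / 2 := by field_simp
      _ < ε := by linarith
  have := h0.add h1
  simpa using this

theorem B_tendsto (hBl : Tendsto (fun m => B m * l m) atTop (𝓝 1)) :
    Tendsto B atTop (𝓝 0) := by
  have := hBl.div_atTop l_tendsto
  refine this.congr fun m => ?_
  have := (l_pos m).ne'
  field_simp

theorem D_tendsto (hBl : Tendsto (fun m => B m * l m) atTop (𝓝 1)) :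
    Tendsto (fun n : ℕ => (∑ m ∈ range (n + 1), B m) / n) atTop (𝓝 0) := by
  have h1 := (B_tendsto hBl).cesaro
  have h2 := h1.comp (tendsto_add_atTop_nat 1)
  have h3 : Tendsto (fun n : ℕ => ((n : ℝ) + 1) / n) atTop (𝓝 1) := by
    have : Tendsto (fun n : ℕ => 1 + 1 / (n : ℝ)) atTop (𝓝 (1 + 0)) :=
      tendsto_const_nhds.add tendsto_one_div_atTop_nhds_zero_nat
    rw [add_zero] at this
    refine this.congr' ?_
    filter_upwards [eventually_gt_atTop 0] with n hn
    have : (n : ℝ) ≠ 0 := by positivity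
    field_simp
  have h4 := h2.mul h3
  rw [zero_mul] at h4
  refine h4.congr' ?_
  filter_upwards [eventually_gt_atTop 0] with n hn
  have : (n : ℝ) ≠ 0 := by positivity
  have : (n : ℝ) + 1 ≠ 0 := by positivity
  simp only [Function.comp]
  push_cast
  field_simp

theorem P2_le (ha : ∀ n, 0 ≤ a n) (hB : ∀ m, 0 ≤ B m) (hB0 : B 0 = 0) {K : ℝ} {n : ℕ}
    (hn : 0 < n) (hK : ∀ i < n, (i : ℝ) * a i ≤ K) (hK0 : 0 ≤ K) :
    P2 a B n ≤ 2 * K * ((∑ m ∈ range (n + 1), B m) / n) := by
  have hn' : (0 : ℝ) < n := by exact_mod_cast hn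
  have h1 : P2 a B n ≤ ∑ i ∈ Ico (hf n) (n + 1), (2 * K / n) * B (n - i) := by
    refine sum_le_sum fun i hi => ?_
    rw [mem_Ico] at hi
    rcases Nat.lt_or_ge i n with h | h
    · refine mul_le_mul_of_nonneg_right ?_ (hB _)
      have h2 := hK i h
      have h3 : n ≤ 2 * i := by unfold hf at hi; omega
      have h4 : (n : ℝ) ≤ 2 * i := by exact_mod_cast h3
      rw [le_div_iff₀ hn']
      have := ha i
      nlinarith
    · have : i = n := by omega
      subst this
      rw [Nat.sub_self, hB0]; simp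
  refine h1.trans ?_
  rw [← Finset.mul_sum]
  have h5 : ∑ i ∈ Ico (hf n) (n + 1), B (n - i) ≤ ∑ m ∈ range (n + 1), B m := by
    have h6 : ∑ m ∈ range (n + 1), B m = ∑ i ∈ range (n + 1), B (n - i) := by
      rw [← Finset.sum_range_reflect]
      refine sum_congr rfl fun i hi => ?_
      congr 1
    rw [h6]
    refine Finset.sum_le_sum_of_subset_of_nonneg ?_ fun _ _ _ => hB _
    intro i hi
    rw [mem_Ico] at hi
    exact mem_range.2 hi.2
  calc 2 * K / n * ∑ i ∈ Ico (hf n) (n + 1), B (n - i)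
      ≤ 2 * K / n * ∑ m ∈ range (n + 1), B m := by gcongr
    _ = _ := by ring

theorem tauber (ha : ∀ n, 0 ≤ a n) (hB : ∀ m, 0 ≤ B m) (hB0 : B 0 = 0)
    (hrec : ∀ n : ℕ, (n : ℝ) * a n = ∑ i ∈ range (n + 1), a i * B (n - i))
    (hBl : Tendsto (fun m => B m * l m) atTop (𝓝 1))
    (hA : Tendsto (fun n => (∑ i ∈ range n, a i) / l n) atTop (𝓝 L)) :
    Tendsto (fun n : ℕ => (n : ℝ) * a n) atTop (𝓝 L) := by
  have hsplit : ∀ n : ℕ, (n : ℝ) * a n = P1 a B n + P2 a B n := by
    intro n
    rw [hrec, P1, P2, Finset.range_eq_Ico, Finset.range_eq_Ico,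
      Finset.sum_Ico_consecutive _ (Nat.zero_le _)]
    unfold hf; omega
  have hP1 := P1_tendsto ha hBl hA
  have hD := D_tendsto hBl
  obtain ⟨N, hN⟩ := eventually_atTop.1 (((tendsto_order.1 hP1).2 (|L| + 1)
    (by linarith [le_abs_self L])).and (((tendsto_order.1 hD).2 (1 / 4) (by norm_num)).and
      (eventually_gt_atTop 0)))
  -- uniform bound
  obtain ⟨K, hK⟩ : ∃ K : ℝ, ∀ n : ℕ, (n : ℝ) * a n ≤ K := by
    let K : ℝ := 2 * (|L| + 1) + ∑ i ∈ range N, (i : ℝ) * a i
    have hs : 0 ≤ ∑ i ∈ range N, (i : ℝ) * a i :=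
      Finset.sum_nonneg fun i _ => mul_nonneg (Nat.cast_nonneg _) (ha i)
    have hK0 : 0 ≤ K := by positivity
    have hK1 : 2 * (|L| + 1) ≤ K := by simp only [K]; linarith
    refine ⟨K, fun n => ?_⟩
    induction n using Nat.strong_induction_on with
    | _ n ih =>
      rcases Nat.lt_or_ge n N with h | h
      · have : (n : ℝ) * a n ≤ ∑ i ∈ range N, (i : ℝ) * a i :=
          Finset.single_le_sum (f := fun i : ℕ => (i : ℝ) * a i)
            (fun i _ => mul_nonneg (Nat.cast_nonneg _) (ha i)) (mem_range.2 h)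
        have h2 : 0 ≤ 2 * (|L| + 1) := by positivity
        simp only [K]; linarith
      · obtain ⟨g1, g2, g3⟩ := hN n h
        have := P2_le ha hB hB0 g3 ih hK0
        rw [hsplit]
        have h4 : 2 * K * ((∑ m ∈ range (n + 1), B m) / n) ≤ 2 * K * (1 / 4) := by
          gcongr
        linarith
  have hK0 : 0 ≤ K := by
    have := hK 0
    simpa using this
  have hP2 : Tendsto (P2 a B) atTop (𝓝 0) := by
    have h1 : Tendsto (fun n : ℕ => 2 * K * ((∑ m ∈ range (n + 1), B m) / n)) atTop (𝓝 0) := by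
      simpa using hD.const_mul (2 * K)
    refine tendsto_of_tendsto_of_tendsto_of_le_of_le' tendsto_const_nhds h1 ?_ ?_
    · exact Eventually.of_forall fun n => Finset.sum_nonneg fun i _ => mul_nonneg (ha _) (hB _)
    · filter_upwards [eventually_gt_atTop 0] with n hn
      exact P2_le ha hB hB0 hn (fun i _ => hK i) hK0
  have := hP1.add hP2
  rw [add_zero] at this
  exact this.congr fun n => (hsplit n).symm

end Pool.Agent.R866.SN
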