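import Pool.Agent.R866.SN.Comb
import Pool.Agent.R866.SN.Taub
import Pool.Agent.H305R2.MertensE
import Pool.Agent.Cov.PNT

/-! Application to the weights `1 / p_k`. -/

namespace Pool.Agent.R866.SN

open Filter Topology Finset
open scoped ENNReal

/-- the `k`-th prime, `p_1 = 2` -/
noncomputable def pr (k : ℕ) : ℕ := Nat.nth Nat.Prime (k - 1)

/-- the weight `1 / p_k` -/
noncomputable def cr (k : ℕ) : ℝ := if k = 0 then 0 else ((pr k : ℕ) : ℝ)⁻¹

/-- the same in `ℝ≥0∞` -/
noncomputable def ce (k : ℕ) : ℝ≥0∞ := ENNReal.ofReal (cr k)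

theorem pr_prime (k : ℕ) : (pr k).Prime := Nat.prime_nth_prime _

theorem pr_ge {k : ℕ} (hk : k ≠ 0) : k + 1 ≤ pr k := by
  have := Nat.add_two_le_nth_prime (k - 1)
  unfold pr
  omega

theorem cr_nonneg (k : ℕ) : 0 ≤ cr k := by
  unfold cr
  split_ifs
  · exact le_rfl
  · positivity

theorem cr_le {k : ℕ} (hk : k ≠ 0) : cr k ≤ ((k : ℝ) + 1)⁻¹ := by
  unfold cr
  rw [if_neg hk]
  have h1 : ((k : ℝ) + 1) ≤ pr k := by exact_mod_cast pr_ge hk
  gcongr

theorem cr_le_half (k : ℕ) : cr k ≤ 1 / 2 := by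
  rcases eq_or_ne k 0 with rfl | hk
  · simp [cr]
  · refine (cr_le hk).trans ?_
    rw [one_div]
    have : (1 : ℝ) ≤ k := by exact_mod_cast Nat.one_le_iff_ne_zero.mpr hk
    gcongr
    linarith

theorem ce_zero : ce 0 = 0 := by simp [ce, cr]

/-- real version of `S` -/
noncomputable def Sr (n : ℕ) : ℝ := ∏ k ∈ range n, (1 - cr (k + 1))⁻¹

/-- real version of the factor in `T` -/
noncomputable def Tr (n : ℕ) : ℝ := ∑ k ∈ range (n + 1), (k : ℝ) * (cr k * (1 - cr k)⁻¹)

theorem one_sub_pos (k : ℕ) : 0 < 1 - cr k := by linarith [cr_le_half k]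

theorem inv_eq (k : ℕ) : (1 - ce k)⁻¹ = ENNReal.ofReal ((1 - cr k)⁻¹) := by
  rw [ENNReal.ofReal_inv_of_pos (one_sub_pos k), ENNReal.ofReal_sub _ (cr_nonneg k),
    ENNReal.ofReal_one]
  rfl

theorem Sr_pos (n : ℕ) : 0 < Sr n := prod_pos fun k _ => inv_pos.mpr (one_sub_pos _)

theorem S_eq' (n : ℕ) : S ce n = ENNReal.ofReal (Sr n) := by
  rw [S_eq ce ce_zero, Sr, ENNReal.ofReal_prod_of_nonneg]
  · exact prod_congr rfl fun k _ => inv_eq _
  · intro k _
    exact (inv_pos.mpr (one_sub_pos _)).le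

theorem Tr_nonneg (n : ℕ) : 0 ≤ Tr n :=
  sum_nonneg fun k _ => mul_nonneg (Nat.cast_nonneg _)
    (mul_nonneg (cr_nonneg _) (inv_pos.mpr (one_sub_pos _)).le)

theorem T_eq' (n : ℕ) : T ce n = ENNReal.ofReal (Tr n * Sr n) := by
  rw [T_eq, ENNReal.ofReal_mul (Tr_nonneg n), S_eq', Tr, ENNReal.ofReal_sum_of_nonneg]
  · congr 1
    refine sum_congr rfl fun k _ => ?_
    rw [ENNReal.ofReal_mul (Nat.cast_nonneg _), ENNReal.ofReal_mul (cr_nonneg _), inv_eq,
      ENNReal.ofReal_natCast]
    rfl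
  · intro k _
    exact mul_nonneg (Nat.cast_nonneg _) (mul_nonneg (cr_nonneg _) (inv_pos.mpr (one_sub_pos _)).le)

/-- real version of `a` -/
noncomputable def ar (n : ℕ) : ℝ := (a ce n).toReal

theorem a_ne_top (n : ℕ) : a ce n ≠ ⊤ := by
  have h1 : a ce n ≤ S ce n :=
    (Finset.single_le_sum (f := fun i => a ce i) (fun _ _ => zero_le) (self_mem_range_succ n)).trans
      (sum_a_le ce n)
  refine ne_top_of_le_ne_top ?_ h1
  rw [S_eq']
  exact ENNReal.ofReal_ne_top

theorem ar_nonneg (n : ℕ) : 0 ≤ ar n := ENNReal.toReal_nonneg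

theorem sum_ar (n : ℕ) : ∑ i ∈ range n, ar i = (∑ i ∈ range n, a ce i).toReal := by
  rw [ENNReal.toReal_sum fun i _ => a_ne_top i]
  rfl

theorem ar_le (n : ℕ) : ∑ i ∈ range (n + 1), ar i ≤ Sr n := by
  rw [sum_ar]
  have h := sum_a_le ce n
  rw [S_eq'] at h
  exact ENNReal.toReal_le_of_le_ofReal (Sr_pos n).le h

theorem ar_markov (n : ℕ) : (n : ℝ) * Sr n ≤ n * (∑ i ∈ range (n + 1), ar i) + Tr n * Sr n := by
  have h := markov ce n
  rw [S_eq', T_eq'] at h
  have hA : (∑ i ∈ range (n + 1), a ce i) = ENNReal.ofReal (∑ i ∈ range (n + 1), ar i) := by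
    rw [sum_ar, ENNReal.ofReal_toReal]
    exact (ENNReal.sum_ne_top.mpr fun i _ => a_ne_top i)
  have hA0 : 0 ≤ ∑ i ∈ range (n + 1), ar i := sum_nonneg fun i _ => ar_nonneg i
  have hT0 : 0 ≤ Tr n * Sr n := mul_nonneg (Tr_nonneg n) (Sr_pos n).le
  rw [hA, ← ENNReal.ofReal_natCast, ← ENNReal.ofReal_mul (Nat.cast_nonneg _),
    ← ENNReal.ofReal_mul (Nat.cast_nonneg _), ← ENNReal.ofReal_add (by positivity) hT0,
    ENNReal.ofReal_le_ofReal_iff (by positivity)] at h
  exact h

/-! ### Prime number theorem -/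

theorem pr_tendsto : Tendsto pr atTop atTop := by
  refine tendsto_atTop_mono' _ ?_ tendsto_id
  filter_upwards [eventually_ne_atTop 0] with k hk
  have := pr_ge hk
  simp only [id]
  omega

theorem pi_pr {k : ℕ} (hk : k ≠ 0) : Nat.primeCounting (pr k) = k := by
  unfold pr Nat.primeCounting
  rw [Nat.primeCounting']
  have h := Nat.count_nth_succ_of_infinite Nat.infinite_setOfPred_prime (k - 1)
  rw [h]
  omega

theorem E1 : Tendsto (fun k : ℕ => (k : ℝ) * Real.log (pr k) / pr k) atTop (𝓝 1) := by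
  have h := Pool.Agent.Cov.PNT.pi_tendsto.comp
    ((tendsto_natCast_atTop_atTop (R := ℝ)).comp pr_tendsto)
  refine h.congr' ?_
  filter_upwards [eventually_ne_atTop 0] with k hk
  simp only [Function.comp, Nat.floor_natCast]
  rw [pi_pr hk]

theorem log_pr_tendsto : Tendsto (fun k : ℕ => Real.log (pr k)) atTop atTop :=
  Real.tendsto_log_atTop.comp ((tendsto_natCast_atTop_atTop (R := ℝ)).comp pr_tendsto)

theorem E2 : Tendsto (fun k : ℕ => Real.log k / Real.log (pr k)) atTop (𝓝 1) := by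
  have h1 : Tendsto (fun k : ℕ => Real.log ((k : ℝ) * Real.log (pr k) / pr k)) atTop (𝓝 0) := by
    have := (Real.continuousAt_log one_ne_zero).tendsto.comp E1
    rw [Real.log_one] at this
    exact this
  have h2 : Tendsto (fun k : ℕ => Real.log ((k : ℝ) * Real.log (pr k) / pr k)
      / Real.log (pr k)) atTop (𝓝 0) := h1.div_atTop log_pr_tendsto
  have h3 : Tendsto (fun k : ℕ => Real.log (Real.log (pr k)) / Real.log (pr k)) atTop (𝓝 0) := by
    have h4 : Tendsto (fun x : ℝ => Real.log x / x) atTop (𝓝 0) := by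
      have := Real.isLittleO_log_id_atTop.tendsto_div_nhds_zero
      exact this
    exact h4.comp log_pr_tendsto
  have h5 := (h2.sub h3).add_const 1
  rw [sub_zero, zero_add] at h5
  refine h5.congr' ?_
  filter_upwards [eventually_gt_atTop 0, log_pr_tendsto.eventually_gt_atTop 0] with k hk hl
  have hk' : (0 : ℝ) < k := by exact_mod_cast hk
  have hp : (0 : ℝ) < pr k := by exact_mod_cast (pr_prime k).pos
  rw [Real.log_div (by positivity) hp.ne', Real.log_mul hk'.ne' hl.ne']
  field_simp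
  ring

theorem l_div_log : Tendsto (fun k : ℕ => l k / Real.log k) atTop (𝓝 1) := by
  have h1 : Tendsto (fun k : ℕ => Real.log ((k : ℝ) + 2) - Real.log k) atTop (𝓝 0) := by
    have h2 : Tendsto (fun k : ℕ => 1 + 2 / (k : ℝ)) atTop (𝓝 (1 + 0)) :=
      tendsto_const_nhds.add (tendsto_const_div_atTop_nhds_zero_nat 2)
    rw [add_zero] at h2
    have h3 := (Real.continuousAt_log one_ne_zero).tendsto.comp h2
    rw [Real.log_one] at h3
    refine h3.congr' ?_
    filter_upwards [eventually_gt_atTop 0] with k hk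
    have hk' : (0 : ℝ) < k := by exact_mod_cast hk
    simp only [Function.comp]
    rw [← Real.log_div (by positivity) hk'.ne']
    congr 1
    field_simp
  have hlog : Tendsto (fun k : ℕ => Real.log (k : ℝ)) atTop atTop :=
    Real.tendsto_log_atTop.comp tendsto_natCast_atTop_atTop
  have h4 := (h1.div_atTop hlog).add_const 1
  rw [zero_add] at h4
  refine h4.congr' ?_
  filter_upwards [hlog.eventually_gt_atTop 0] with k hk
  unfold l
  field_simp
  ring

theorem E3 : Tendsto (fun k : ℕ => l k / Real.log (pr k)) atTop (𝓝 1) := by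
  have h := l_div_log.mul E2
  rw [one_mul] at h
  have hlog : Tendsto (fun k : ℕ => Real.log (k : ℝ)) atTop atTop :=
    Real.tendsto_log_atTop.comp tendsto_natCast_atTop_atTop
  refine h.congr' ?_
  filter_upwards [hlog.eventually_gt_atTop 0] with k hk
  field_simp

theorem mc_tendsto : Tendsto (fun m : ℕ => ((m : ℝ) * cr m) * l m) atTop (𝓝 1) := by
  have h := E1.mul E3
  rw [one_mul] at h
  refine h.congr' ?_
  filter_upwards [eventually_ne_atTop 0, log_pr_tendsto.eventually_gt_atTop 0] with k hk hl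
  unfold cr
  rw [if_neg hk]
  have hp : (0 : ℝ) < pr k := by exact_mod_cast (pr_prime k).pos
  field_simp

theorem Sr_eq {n : ℕ} (hn : n ≠ 0) :
    Sr n = ∏ p ∈ (Finset.Icc 1 (pr n)).filter Nat.Prime, (1 - (p : ℝ)⁻¹)⁻¹ := by
  unfold Sr
  refine Finset.prod_nbij (fun k => pr (k + 1)) ?_ ?_ ?_ ?_
  · intro k hk
    rw [mem_range] at hk
    rw [mem_filter, mem_Icc]
    refine ⟨⟨(pr_prime _).pos, ?_⟩, pr_prime _⟩
    unfold pr
    exact Nat.nth_monotone Nat.infinite_setOfPred_prime (by omega)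
  · intro x _ y _ h
    have := Nat.nth_injective Nat.infinite_setOfPred_prime h
    simpa using this
  · intro p hp
    rw [mem_coe, mem_filter, mem_Icc] at hp
    refine ⟨Nat.count Nat.Prime p, ?_, ?_⟩
    · rw [mem_coe, mem_range]
      have h1 : Nat.count Nat.Prime p ≤ Nat.count Nat.Prime (pr n) := Nat.count_monotone _ hp.1.2
      have h2 : Nat.count Nat.Prime (pr n) = n - 1 :=
        Nat.count_nth_of_infinite Nat.infinite_setOfPred_prime (n - 1)
      omega
    · change pr (Nat.count Nat.Prime p + 1) = p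
      unfold pr
      rw [Nat.add_sub_cancel]
      exact Nat.nth_count hp.2
  · intro k _
    unfold cr
    rw [if_neg (Nat.succ_ne_zero k)]

theorem Sr_tendsto : Tendsto (fun n : ℕ => Sr n / l n) atTop
    (𝓝 (Real.exp Real.eulerMascheroniConstant)) := by
  have h1 := Pool.Agent.H305R2.mertens_three.comp pr_tendsto
  have h2 := h1.div E3 one_ne_zero
  rw [div_one] at h2
  refine h2.congr' ?_
  filter_upwards [eventually_ne_atTop 0, log_pr_tendsto.eventually_gt_atTop 0] with k hk hl
  have := (l_pos k).ne'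
  simp only [Function.comp, Pi.div_apply]
  rw [← Sr_eq hk]
  field_simp

theorem mc_zero : Tendsto (fun m : ℕ => (m : ℝ) * cr m) atTop (𝓝 0) := by
  refine (mc_tendsto.div_atTop l_tendsto).congr fun m => ?_
  have := (l_pos m).ne'
  field_simp

theorem Tr_tendsto : Tendsto (fun n : ℕ => Tr n / n) atTop (𝓝 0) := by
  have h0 : Tendsto (fun m : ℕ => 2 * ((m : ℝ) * cr m)) atTop (𝓝 0) := by
    simpa using mc_zero.const_mul 2
  have h1 := h0.cesaro
  have h2 := h1.comp (tendsto_add_atTop_nat 1)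
  have h3 : Tendsto (fun n : ℕ => ((n : ℝ) + 1) / n) atTop (𝓝 1) := by
    have : Tendsto (fun n : ℕ => 1 + 1 / (n : ℝ)) atTop (𝓝 (1 + 0)) :=
      tendsto_const_nhds.add tendsto_one_div_atTop_nhds_zero_nat
    rw [add_zero] at this
    refine this.congr' ?_
    filter_upwards [eventually_gt_atTop 0] with n hn
    have : (n : ℝ) ≠ 0 := by positivity
    field_simp
  have h4 := h2.mul h3
  rw [zero_mul] at h4
  refine tendsto_of_tendsto_of_tendsto_of_le_of_le' tendsto_const_nhds h4 ?_ ?_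
  · filter_upwards with n
    exact div_nonneg (Tr_nonneg n) (Nat.cast_nonneg _)
  · filter_upwards [eventually_gt_atTop 0] with n hn
    have hn0 : (0 : ℝ) < n := by exact_mod_cast hn
    have h5 : Tr n ≤ ∑ m ∈ range (n + 1), 2 * ((m : ℝ) * cr m) := by
      refine sum_le_sum fun k _ => ?_
      have hc := cr_nonneg k
      have : (1 - cr k)⁻¹ ≤ 2 := by
        rw [inv_le_comm₀ (one_sub_pos k) (by norm_num)]
        linarith [cr_le_half k]
      calc (k : ℝ) * (cr k * (1 - cr k)⁻¹) ≤ k * (cr k * 2) := by gcongr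
        _ = 2 * ((k : ℝ) * cr k) := by ring
    simp only [Function.comp]
    push_cast
    have h6 : ((n : ℝ) + 1)⁻¹ * (∑ m ∈ range (n + 1), 2 * ((m : ℝ) * cr m)) * (((n : ℝ) + 1) / n)
        = (∑ m ∈ range (n + 1), 2 * ((m : ℝ) * cr m)) / n := by
      have : (n : ℝ) + 1 ≠ 0 := by positivity
      field_simp
    rw [h6]
    gcongr

theorem A_tendsto : Tendsto (fun n => (∑ i ∈ range n, ar i) / l n) atTop
    (𝓝 (Real.exp Real.eulerMascheroniConstant)) := by
  have hl : Tendsto (fun n : ℕ => l n / l (n + 1)) atTop (𝓝 1) := by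
    have h1 : Tendsto (fun n : ℕ => 1 - Real.log 2 / l (n + 1)) atTop (𝓝 (1 - 0)) :=
      ((l_tendsto.comp (tendsto_add_atTop_nat 1)).const_div_atTop _).const_sub 1
    rw [sub_zero] at h1
    refine tendsto_of_tendsto_of_tendsto_of_le_of_le h1 tendsto_const_nhds (fun n => ?_) fun n => ?_
    · change 1 - Real.log 2 / l (n + 1) ≤ l n / l (n + 1)
      have h3 := l_pos (n + 1)
      rw [le_div_iff₀ h3, sub_mul, one_mul, div_mul_cancel₀ _ h3.ne', sub_le_iff_le_add]
      unfold l
      have h0 : (0 : ℝ) ≤ n := Nat.cast_nonneg n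
      rw [← Real.log_mul (by linarith) (by norm_num)]
      apply Real.log_le_log
      · push_cast; linarith
      · push_cast; linarith
    · change l n / l (n + 1) ≤ 1
      rw [div_le_one (l_pos _)]
      exact l_mono (Nat.le_succ n)
  have hup : Tendsto (fun n : ℕ => Sr n / l n * (l n / l (n + 1))) atTop
    (𝓝 (Real.exp Real.eulerMascheroniConstant)) := by
    simpa using Sr_tendsto.mul hl
  have hlo : Tendsto (fun n : ℕ => Sr n / l n * (l n / l (n + 1)) * (1 - Tr n / n)) atTop
    (𝓝 (Real.exp Real.eulerMascheroniConstant)) := by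
    simpa using hup.mul (Tr_tendsto.const_sub 1)
  have h : Tendsto (fun n => (∑ i ∈ range (n + 1), ar i) / l (n + 1)) atTop
    (𝓝 (Real.exp Real.eulerMascheroniConstant)) := by
    refine tendsto_of_tendsto_of_tendsto_of_le_of_le' hlo hup ?_ ?_
    · filter_upwards [eventually_gt_atTop 0] with n hn
      have hn0 : (0 : ℝ) < n := by exact_mod_cast hn
      have h1 := ar_markov n
      have h2 := l_pos n
      have h3 := l_pos (n + 1)
      have e : Sr n / l n * (l n / l (n + 1)) * (1 - Tr n / n)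
          = ((n * Sr n - Tr n * Sr n) / n) / l (n + 1) := by
        field_simp
      rw [e]
      gcongr
      rw [div_le_iff₀ hn0]
      linarith
    · filter_upwards with n
      have h2 := l_pos n
      have h3 := l_pos (n + 1)
      have e : Sr n / l n * (l n / l (n + 1)) = Sr n / l (n + 1) := by
        field_simp
      rw [e]
      have := ar_le n
      gcongr
  exact (tendsto_add_atTop_iff_nat 1).mp h

end Pool.Agent.R866.SN
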